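import Pool.Agent.H95.ND.Targets
import Pool.Agent.H97.NF.Pair

/-!
# Modules FUB and FIB: Fubini for pairs with the same outside
-/

open MeasureTheory ProbabilityTheory Filter Topology
open scoped ENNReal

namespace Pool.Agent.H19.PD

open Pool.Agent.H99.NS Pool.Agent.H22.LPP Pool.Agent.H95.INS Pool.Agent.H76.ND Pool.Agent.H95.ND
open Pool.Agent.H97.NF (PEnv eA eB PN pairLaw mp_sitewise pairLaw_zero measurable_eA)

theorem gl2_of_mem {Q : Set Site} (E : PEnv) (out : Env) {x : Site} (h : x ∈ Q) :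
    gl2 Q E out x = E x := by
  unfold gl2; rw [if_pos h]

theorem gl2_of_notMem {Q : Set Site} (E : PEnv) (out : Env) {x : Site} (h : x ∉ Q) :
    gl2 Q E out x = (out x, out x) := by
  unfold gl2; rw [if_neg h]

theorem pf_FUB : T_FUB := by
  classical
  intro q ρ Q hQ
  have h := mp_sitewise (fun x => pairLaw q (ρ x)) (fun _ : Site => geo q)
    (fun x => if x ∈ Q then (Prod.fst : (ℕ × ℕ) × ℕ → ℕ × ℕ) else fun p => (p.2, p.2)) (by
      intro x
      split_ifs
      · exact measurable_fst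
      · fun_prop)
  have e1 : (fun (p : PEnv × Env) (x : Site) =>
      (if x ∈ Q then (Prod.fst : (ℕ × ℕ) × ℕ → ℕ × ℕ) else fun p => (p.2, p.2)) (p.1 x, p.2 x)) =
      fun p => gl2 Q p.1 p.2 := by
    funext p x
    by_cases hx : x ∈ Q
    · rw [if_pos hx, gl2_of_mem _ _ hx]
    · rw [if_neg hx, gl2_of_notMem _ _ hx]
  have e2 : Measure.infinitePi (fun x => ((pairLaw q (ρ x)).prod (geo q)).map
      (if x ∈ Q then (Prod.fst : (ℕ × ℕ) × ℕ → ℕ × ℕ) else fun p => (p.2, p.2))) =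
      Measure.infinitePi (fun x => pairLaw q (ρ x)) := by
    congr 1
    funext x
    by_cases hx : x ∈ Q
    · rw [if_pos hx, Measure.map_fst_prod, measure_univ, one_smul]
    · have e3 : (fun p : (ℕ × ℕ) × ℕ => (p.2, p.2)) = (fun k : ℕ => (k, k)) ∘ Prod.snd := rfl
      rw [if_neg hx, e3, ← Measure.map_map (by fun_prop) measurable_snd, Measure.map_snd_prod,
        measure_univ, one_smul, hQ x hx, pairLaw_zero]
  rw [e1, e2] at h
  exact h

theorem pf_FIB (h : T_FUB) : T_FIB := by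
  intro q ρ Q G Ev β hQ hG hEv hdep hβ
  have hmp := h q ρ Q hQ
  have hS : MeasurableSet {E : PEnv | eA E ∈ G ∧ E ∈ Ev} := (measurable_eA hG).inter hEv
  rw [← hmp.measure_preimage hS.nullMeasurableSet]
  have hset : (fun p : PEnv × Env => gl2 Q p.1 p.2) ⁻¹' {E : PEnv | eA E ∈ G ∧ E ∈ Ev} =
      {p : PEnv × Env | p.2 ∈ G ∧ gl2 Q p.1 p.2 ∈ Ev} := by
    ext p
    simp only [Set.mem_preimage, Set.mem_ofPred_eq]
    have e : (eA (gl2 Q p.1 p.2) ∈ G) = (p.2 ∈ G) := by
      apply hdep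
      intro x hx
      show (gl2 Q p.1 p.2 x).1 = p.2 x
      rw [gl2_of_notMem _ _ hx]
    rw [e]
  have hS2 : MeasurableSet {p : PEnv × Env | p.2 ∈ G ∧ gl2 Q p.1 p.2 ∈ Ev} := by
    rw [← hset]
    exact hmp.measurable hS
  rw [hset, Measure.prod_apply_symm hS2]
  calc ∫⁻ out, PN q ρ ((fun E => (E, out)) ⁻¹' {p : PEnv × Env | p.2 ∈ G ∧ gl2 Q p.1 p.2 ∈ Ev})
        ∂(PE q) ≤ ∫⁻ out, G.indicator (fun _ => β) out ∂(PE q) := by
        apply lintegral_mono
        intro out
        by_cases ho : out ∈ G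
        · rw [Set.indicator_of_mem ho]
          refine (measure_mono ?_).trans (hβ out ho)
          intro E hE
          exact hE.2
        · rw [Set.indicator_of_notMem ho]
          have : (fun E => (E, out)) ⁻¹' {p : PEnv × Env | p.2 ∈ G ∧ gl2 Q p.1 p.2 ∈ Ev} = ∅ := by
            ext E
            simp [ho]
          show PN q ρ ((fun E => (E, out)) ⁻¹' {p : PEnv × Env | p.2 ∈ G ∧ gl2 Q p.1 p.2 ∈ Ev}) ≤ 0
          rw [this, measure_empty]
    _ = β * PE q G := by
        rw [lintegral_indicator hG, setLIntegral_const]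

end Pool.Agent.H19.PD
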